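import Pool.Agent.J4H88.ABG.Lie

/-!
# Project ABG, jobs LIE-A: DD_cyc, LIE 3, 7, 8, 9
-/

open scoped TensorProduct

set_option autoImplicit false
set_option linter.unusedSectionVars false

namespace Pool.Agent.J4H52.ABG

open Pool.Agent.J4H88.ABG

attribute [local instance 100] LieRing.ofAssociativeRing

universe u v

section Alt

variable {A : Type v} [NonUnitalNonAssocRing A] [IsAlt A]

theorem aso_swap13 (x y z : A) : aso x y z = - aso z y x := by
  rw [aso_swap12, aso_rot' y x z, aso_rot' x z y]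

theorem aso_cyc (p q r s : A) :
    aso (p * q) r s + aso (q * r) p s + aso (r * p) q s - aso p q r * s + s * aso p q r = 0 := by
  have t1 := teich' p q r s
  have t2 := teich' p q s r
  have t2_1 : aso (p * q) s r = - aso (p * q) r s := aso_swap23 _ _ _
  have t2_4 : p * aso q s r = - (p * aso q r s) := by rw [aso_swap23 q s r, mul_neg]
  have t3 := teich' q p r s
  have t3_3 : aso (r * s) q p = - aso (r * s) p q := aso_swap23 _ _ _
  have t3_5 : aso q p r * s = - (aso p q r * s) := by rw [aso_swap12 q p r, neg_mul]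
  have t4 := teich' q p s r
  have t4_1 : aso (q * p) s r = - aso (q * p) r s := aso_swap23 _ _ _
  have t4_3 : aso (s * r) q p = - aso (s * r) p q := aso_swap23 _ _ _
  have t4_4 : q * aso p s r = - (q * aso p r s) := by rw [aso_swap23 p s r, mul_neg]
  have t4_5 : aso q p s * r = - (aso p q s * r) := by rw [aso_swap12 q p s, neg_mul]
  have t5 := teich' q r p s
  have t5_4 : q * aso r p s = - (q * aso p r s) := by rw [aso_swap12 r p s, mul_neg]
  have t5_5 : aso q r p * s = (aso p q r * s) := by rw [aso_rot q r p]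
  have t6 := teich' q s p r
  have t6_4 : q * aso s p r = (q * aso p r s) := by rw [aso_rot' s p r]
  have t6_5 : aso q s p * r = (aso p q s * r) := by rw [aso_rot q s p]
  have t7 := teich' s p q r
  have t7_2 : aso (p * q) s r = - aso (p * q) r s := aso_swap23 _ _ _
  have t7_3 : aso (q * r) s p = - aso (q * r) p s := aso_swap23 _ _ _
  have t7_5 : aso s p q * r = (aso p q s * r) := by rw [aso_rot' s p q]
  linear_combination (norm := abel) - t1 - t2 + t2_1 - t2_4 - t3 + t3_3 - t3_5 - t4 + t4_1 + t4_3 - t4_4 - t4_5 + t5 + t5_4 + t5_5 + t6 + t6_4 + t6_5 - t7 + t7_2 + t7_3 - t7_5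

end Alt

section AltMod

variable (𝕜 : Type u) [Field 𝕜] {A : Type v} [NonUnitalNonAssocRing A] [Module 𝕜 A]
  [IsScalarTower 𝕜 A A] [SMulCommClass 𝕜 A A] [IsAlt A]

theorem DD_cyc' (p q r : A) : DD 𝕜 (p * q) r + DD 𝕜 (q * r) p + DD 𝕜 (r * p) q = 0 := by
  ext s
  simp only [LinearMap.add_apply, LinearMap.zero_apply]
  rw [DD_eq, DD_eq, DD_eq]
  have h := aso_cyc p q r s
  have h1 : (p * q) * r - p * (q * r) = aso p q r := rfl
  have h2 : (q * r) * p - q * (r * p) = aso p q r := by rw [aso_rot' p q r]; rfl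
  have h3 : (r * p) * q - r * (p * q) = aso p q r := by rw [aso_rot p q r]; rfl
  have e : (p * q) * r - r * (p * q) + ((q * r) * p - p * (q * r))
      + ((r * p) * q - q * (r * p)) = (3 : ℤ) • aso p q r := by
    linear_combination (norm := abel) h1 + h2 + h3
  have e1 := congrArg (fun x => x * s - s * x) e
  simp only [add_mul, mul_add, sub_mul, mul_sub, smul_mul_assoc, mul_smul_comm] at e1 ⊢
  linear_combination (norm := abel) e1 - (3 : ℤ) • h

theorem wedge_skew (p q : A) : wedge 𝕜 p q = - wedge 𝕜 q p := by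
  have h := wedge_self 𝕜 (p + q)
  simp only [map_add, LinearMap.add_apply, wedge_self, zero_add, add_zero] at h
  exact eq_neg_of_add_eq_zero_right h

theorem wedge_assoc (a b c d : A) : wedge 𝕜 (a * (b * c)) d =
    wedge 𝕜 ((a * b) * c) d - wedge 𝕜 (aso a b c) d := by
  unfold aso
  rw [map_sub, LinearMap.sub_apply]
  abel

theorem DD_eq2 (p q r : A) : DD 𝕜 p q r =
    (p * q) * r - (q * p) * r - (r * p) * q + (r * q) * p - aso p q r := by
  rw [DD_eq]
  have h1 : r * (p * q) = (r * p) * q - aso p q r := by rw [aso_rot p q r]; unfold aso; abel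
  have h2 : r * (q * p) = (r * q) * p + aso p q r := by rw [aso_swap13 p q r]; unfold aso; abel
  rw [sub_mul, mul_sub, h1, h2]
  abel

theorem wedge_DD (p q r s : A) : wedge 𝕜 (DD 𝕜 p q r) s =
    wedge 𝕜 ((p * q) * r) s - wedge 𝕜 ((q * p) * r) s - wedge 𝕜 ((r * p) * q) s
      + wedge 𝕜 ((r * q) * p) s - wedge 𝕜 (aso p q r) s := by
  rw [DD_eq2]
  simp only [map_sub, map_add, LinearMap.sub_apply, LinearMap.add_apply]

theorem wedge_id (p q r s : A) : wedge 𝕜 (DD 𝕜 p q r) s + wedge 𝕜 r (DD 𝕜 p q s)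
    + (wedge 𝕜 (DD 𝕜 r s p) q + wedge 𝕜 p (DD 𝕜 r s q)) = 0 := by
  have g1 := wedge_DD 𝕜 p q r s
  have f1 : wedge 𝕜 r (DD 𝕜 p q s) = - wedge 𝕜 (DD 𝕜 p q s) r := wedge_skew 𝕜 _ _
  have g2 := wedge_DD 𝕜 p q s r
  have g3 := wedge_DD 𝕜 r s p q
  have g3' : wedge 𝕜 (aso r s p) q = wedge 𝕜 (aso p r s) q := by rw [aso_rot r s p]
  have f2 : wedge 𝕜 p (DD 𝕜 r s q) = - wedge 𝕜 (DD 𝕜 r s q) p := wedge_skew 𝕜 _ _
  have g4 := wedge_DD 𝕜 r s q p
  have g4' : wedge 𝕜 (aso r s q) p = wedge 𝕜 (aso q r s) p := by rw [aso_rot r s q]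
  have h1 := wedge_cyc 𝕜 (p * s) r q
  have h1_2 : wedge 𝕜 (r * q) (p * s) = - wedge 𝕜 (p * s) (r * q) := wedge_skew 𝕜 _ _
  have h1_3 : wedge 𝕜 (q * (p * s)) r = wedge 𝕜 ((q * p) * s) r - wedge 𝕜 (aso q p s) r := wedge_assoc 𝕜 _ _ _ _
  have h1_4 : wedge 𝕜 (aso q p s) r = - wedge 𝕜 (aso p q s) r := by rw [aso_swap12 q p s, map_neg, LinearMap.neg_apply]
  have h2 := wedge_cyc 𝕜 (q * p) r s
  have h2_2 : wedge 𝕜 (r * s) (q * p) = - wedge 𝕜 (q * p) (r * s) := wedge_skew 𝕜 _ _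
  have h2_3 : wedge 𝕜 (s * (q * p)) r = wedge 𝕜 ((s * q) * p) r - wedge 𝕜 (aso s q p) r := wedge_assoc 𝕜 _ _ _ _
  have h2_4 : wedge 𝕜 (aso s q p) r = - wedge 𝕜 (aso p q s) r := by rw [aso_swap13 s q p, map_neg, LinearMap.neg_apply]
  have h3 := wedge_cyc 𝕜 (q * r) s p
  have h3_2 : wedge 𝕜 (s * p) (q * r) = - wedge 𝕜 (q * r) (s * p) := wedge_skew 𝕜 _ _
  have h3_3 : wedge 𝕜 (p * (q * r)) s = wedge 𝕜 ((p * q) * r) s - wedge 𝕜 (aso p q r) s := wedge_assoc 𝕜 _ _ _ _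
  have h4 := wedge_cyc 𝕜 (q * s) r p
  have h4_2 : wedge 𝕜 (r * p) (q * s) = - wedge 𝕜 (q * s) (r * p) := wedge_skew 𝕜 _ _
  have h4_3 : wedge 𝕜 (p * (q * s)) r = wedge 𝕜 ((p * q) * s) r - wedge 𝕜 (aso p q s) r := wedge_assoc 𝕜 _ _ _ _
  have h5 := wedge_cyc 𝕜 (r * p) q s
  have h5_3 : wedge 𝕜 (s * (r * p)) q = wedge 𝕜 ((s * r) * p) q - wedge 𝕜 (aso s r p) q := wedge_assoc 𝕜 _ _ _ _
  have h5_4 : wedge 𝕜 (aso s r p) q = - wedge 𝕜 (aso p r s) q := by rw [aso_swap13 s r p, map_neg, LinearMap.neg_apply]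
  have h6 := wedge_cyc 𝕜 (r * q) p s
  have h6_3 : wedge 𝕜 (s * (r * q)) p = wedge 𝕜 ((s * r) * q) p - wedge 𝕜 (aso s r q) p := wedge_assoc 𝕜 _ _ _ _
  have h6_4 : wedge 𝕜 (aso s r q) p = - wedge 𝕜 (aso q r s) p := by rw [aso_swap13 s r q, map_neg, LinearMap.neg_apply]
  have h7 := wedge_cyc 𝕜 (r * s) q p
  have h7_3 : wedge 𝕜 (p * (r * s)) q = wedge 𝕜 ((p * r) * s) q - wedge 𝕜 (aso p r s) q := wedge_assoc 𝕜 _ _ _ _
  have h8 := wedge_cyc 𝕜 (s * p) q r
  have h8_3 : wedge 𝕜 (r * (s * p)) q = wedge 𝕜 ((r * s) * p) q - wedge 𝕜 (aso r s p) q := wedge_assoc 𝕜 _ _ _ _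
  have h8_4 : wedge 𝕜 (aso r s p) q = wedge 𝕜 (aso p r s) q := by rw [aso_rot r s p]
  linear_combination (norm := abel) g1 + f1 - g2 + g3 - g3' + f2 - g4 + g4' + h1 - h1_2 - h1_3 + h1_4 - h2 + h2_2 + h2_3 - h2_4 + h3 - h3_2 - h3_3 - h4 + h4_2 + h4_3 - h5 + h5_3 - h5_4 + h6 - h6_3 + h6_4 - h7 + h7_3 + h8 - h8_3 + h8_4

theorem wedge_id_self (p q : A) :
    wedge 𝕜 (DD 𝕜 p q p) q + wedge 𝕜 p (DD 𝕜 p q q) = 0 := by
  have f1 : wedge 𝕜 p (DD 𝕜 p q q) = - wedge 𝕜 (DD 𝕜 p q q) p := wedge_skew 𝕜 _ _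
  have g1 := wedge_DD 𝕜 p q p q
  have g2 := wedge_DD 𝕜 p q q p
  have a1 : aso p q p = 0 := by rw [aso_swap12, aso_self23, neg_zero]
  have a2 : aso p q q = 0 := aso_self23 _ _
  have z1 : wedge 𝕜 (aso p q p) q = 0 := by rw [a1, map_zero, LinearMap.zero_apply]
  have z2 : wedge 𝕜 (aso p q q) p = 0 := by rw [a2, map_zero, LinearMap.zero_apply]
  have c1 := wedge_cyc 𝕜 (p * q) p q
  have c1' : q * (p * q) = (q * p) * q := by
    have h : aso q p q = 0 := by rw [aso_swap12, aso_self23, neg_zero]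
    have h2 : (q * p) * q - q * (p * q) = 0 := h
    exact (sub_eq_zero.1 h2).symm
  rw [c1', wedge_self, add_zero] at c1
  have c2 := wedge_cyc 𝕜 (p * p) q q
  have c2' : q * (p * p) = (q * p) * p := (IsAlt.right_alt p q).symm
  rw [c2'] at c2
  have c3 := wedge_cyc 𝕜 (q * q) p p
  have c3' : p * (q * q) = (p * q) * q := (IsAlt.right_alt q p).symm
  rw [c3'] at c3
  have s1 : wedge 𝕜 (q * q) (p * p) = - wedge 𝕜 (p * p) (q * q) := wedge_skew 𝕜 _ _
  linear_combination (norm := abel) f1 + g1 - g2 - z1 + z2 + (2 : ℤ) • c1 - c2 + s1 - c3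

end AltMod

section Lie

variable (𝕜 : Type u) [Field 𝕜] (A : Type v) [NonUnitalNonAssocRing A] [Module 𝕜 A]
  [IsScalarTower 𝕜 A A] [SMulCommClass 𝕜 A A] [IsAlt A]

theorem BBbr_skew' (b c : BB 𝕜 A) : BBbr 𝕜 A b c + BBbr 𝕜 A c b = 0 := by
  induction b using BB_induction with
  | h0 => simp
  | hadd x y hx hy =>
    simp only [map_add, LinearMap.add_apply]
    linear_combination (norm := abel) hx + hy
  | hw p q =>
    induction c using BB_induction with
    | h0 => simp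
    | hadd x y hx hy =>
      simp only [map_add, LinearMap.add_apply]
      linear_combination (norm := abel) hx + hy
    | hw r s =>
      rw [BBbr_wedge, BBbr_wedge, DB_wedge, DB_wedge]
      exact wedge_id 𝕜 p q r s

/-- JOB LIE 3 -/
theorem BBbr_self' (b : BB 𝕜 A) : BBbr 𝕜 A b b = 0 := by
  induction b using BB_induction with
  | h0 => simp
  | hadd x y hx hy =>
    have h := BBbr_skew' 𝕜 A x y
    simp only [map_add, LinearMap.add_apply, hx, hy]
    linear_combination (norm := abel) h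
  | hw p q =>
    rw [BBbr_wedge, DB_wedge]
    exact wedge_id_self 𝕜 p q

/-- derivations and the operators `D_{p,q}` -/
theorem der_DD (D : A →ₗ[𝕜] A) (hD : ∀ x y, D (x * y) = D x * y + x * D y) (p q : A) :
    DD 𝕜 (D p) q + DD 𝕜 p (D q) = D ∘ₗ DD 𝕜 p q - DD 𝕜 p q ∘ₗ D := by
  ext r
  simp only [LinearMap.add_apply, LinearMap.sub_apply, LinearMap.comp_apply, DD_apply, map_add,
    map_sub, hD, mul_add, add_mul]
  abel

/-- JOB LIE 8 -/
theorem DB_BBbr' (b c : BB 𝕜 A) :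
    DB 𝕜 A (BBbr 𝕜 A b c) = DB 𝕜 A b ∘ₗ DB 𝕜 A c - DB 𝕜 A c ∘ₗ DB 𝕜 A b := by
  induction c using BB_induction with
  | h0 => simp
  | hadd x y hx hy =>
    simp only [map_add, hx, hy, LinearMap.comp_add, LinearMap.add_comp]
    abel
  | hw p q =>
    rw [BBbr_wedge, map_add, DB_wedge, DB_wedge, DB_wedge]
    exact der_DD 𝕜 A (DB 𝕜 A b) (DB_mul 𝕜 b) p q

/-- JOB LIE 9 -/
theorem BBbr_jac' (a b c : BB 𝕜 A) :
    BBbr 𝕜 A (BBbr 𝕜 A a b) c = BBbr 𝕜 A a (BBbr 𝕜 A b c) - BBbr 𝕜 A b (BBbr 𝕜 A a c) := by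
  induction c using BB_induction with
  | h0 => simp
  | hadd x y hx hy => simp only [map_add, hx, hy]; abel
  | hw r s =>
    simp only [BBbr_wedge, DB_BBbr', map_add, map_sub, LinearMap.sub_apply, LinearMap.comp_apply]
    abel

variable [CharZero 𝕜]

/-- JOB LIE 7 -/
theorem BBbr_brSB' (b : BB 𝕜 A) (u v : sl3 𝕜 ⊗[𝕜] A) :
    BBbr 𝕜 A b (brSB 𝕜 A u v) = brSB 𝕜 A (actS 𝕜 A b u) v + brSB 𝕜 A u (actS 𝕜 A b v) := by
  induction u using TensorProduct.induction_on with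
  | zero => simp
  | add x y hx hy => simp only [map_add, LinearMap.add_apply, hx, hy]; abel
  | tmul X p =>
    induction v using TensorProduct.induction_on with
    | zero => simp
    | add x y hx hy => simp only [map_add, hx, hy]; abel
    | tmul Y q =>
      simp only [actS_tmul, brSB_tmul, map_smul, BBbr_wedge, smul_add]

end Lie

end Pool.Agent.J4H52.ABG
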